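import Pool.Agent.Helper677.Ham.Tab

set_option autoImplicit false

open Pointwise

namespace Pool.Agent.Helper677.Ham

open P

/-- at most one point with given coordinates -/
def pts (x y z : ℤ) : Finset P := if h : (x + y + z) % 2 = 0 then {P.mk x y z h} else ∅

theorem mem_pts (x y z : ℤ) (u : P) : u ∈ pts x y z ↔ u.c1 = x ∧ u.c2 = y ∧ u.c3 = z := by
  unfold pts
  split
  · rename_i h
    rw [Finset.mem_singleton, P.ext_iff]
    simp
  · rename_i h
    constructor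
    · intro hu; simp at hu
    · rintro ⟨h1, h2, h3⟩
      exact absurd (by rw [← h1, ← h2, ← h3]; exact u.par) h

/-- the prism over the table `t` -/
noncomputable def prism (t : List (ℤ × ℤ × ℤ × ℤ)) (R : ℤ) : Finset P :=
  t.toFinset.biUnion fun c => (Finset.Icc (-R + c.2.2.1) (R + c.2.2.2)).biUnion fun z => pts c.1 c.2.1 z

theorem mem_prism (t : List (ℤ × ℤ × ℤ × ℤ)) (R : ℤ) (u : P) : u ∈ prism t R ↔
    ∃ c ∈ t, u.c1 = c.1 ∧ u.c2 = c.2.1 ∧ -R + c.2.2.1 ≤ u.c3 ∧ u.c3 ≤ R + c.2.2.2 := by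
  unfold prism
  simp only [Finset.mem_biUnion, List.mem_toFinset, Finset.mem_Icc, mem_pts]
  constructor
  · rintro ⟨c, hc, z, ⟨h1, h2⟩, h3, h4, h5⟩
    exact ⟨c, hc, h3, h4, by rw [h5]; exact h1, by rw [h5]; exact h2⟩
  · rintro ⟨c, hc, h3, h4, h1, h2⟩
    exact ⟨c, hc, u.c3, ⟨h1, h2⟩, h3, h4, rfl⟩

/-- planar base of a table -/
def base (t : List (ℤ × ℤ × ℤ × ℤ)) : Finset (ℤ × ℤ) := (t.map (fun c => (c.1, c.2.1))).toFinset

theorem mem_base (t : List (ℤ × ℤ × ℤ × ℤ)) (p : ℤ × ℤ) : p ∈ base t ↔ ∃ c ∈ t, (c.1, c.2.1) = p := by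
  unfold base
  simp only [List.mem_toFinset, List.mem_map]

/-- planar product -/
def cv (A : Finset P) (D : Finset (ℤ × ℤ)) : Finset (ℤ × ℤ) := (A ×ˢ D).image (fun q => pl q.1 q.2)

theorem mem_cv (A : Finset P) (D : Finset (ℤ × ℤ)) (p : ℤ × ℤ) :
    p ∈ cv A D ↔ ∃ a ∈ A, ∃ d ∈ D, pl a d = p := by
  unfold cv
  simp only [Finset.mem_image, Finset.mem_product, Prod.exists]
  constructor
  · rintro ⟨a, x, y, ⟨ha, hd⟩, h⟩
    exact ⟨a, ha, x, y, hd, h⟩
  · rintro ⟨a, ha, x, y, hd, h⟩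
    exact ⟨a, x, y, ⟨ha, hd⟩, h⟩

theorem card_cv_le (A : Finset P) (D : Finset (ℤ × ℤ)) : (cv A D).card ≤ A.card * D.card := by
  unfold cv
  exact le_trans Finset.card_image_le (by rw [Finset.card_product])

theorem prj_mem_cv (A : Finset P) (t : List (ℤ × ℤ × ℤ × ℤ)) (R : ℤ) (u : P) (hu : u ∈ A * prism t R) :
    prj u ∈ cv A (base t) := by
  rw [Finset.mem_mul] at hu
  obtain ⟨a, ha, s, hs, rfl⟩ := hu
  rw [mem_prism] at hs
  obtain ⟨c, hc, h1, h2, _, _⟩ := hs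
  rw [mem_cv]
  refine ⟨a, ha, (c.1, c.2.1), (mem_base t _).2 ⟨c, hc, rfl⟩, ?_⟩
  rw [prj_mul]
  unfold prj
  rw [h1, h2]

/-- lower bound for the product -/
theorem prism_lower (Y : List P) (t : List (ℤ × ℤ × ℤ × ℤ)) (hG : Good Y t) (r : ℕ) (hr : r % 2 = 0) (A : Finset P) :
    r * (cv A (base t)).card ≤ (A * prism t (r : ℤ)).card := by
  apply Finset.mul_card_image_le_card_of_maps_to (f := prj) (prj_mem_cv A t r)
  intro b hb
  rw [mem_cv] at hb
  obtain ⟨a, ha, d, hd, hab⟩ := hb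
  rw [mem_base] at hd
  obtain ⟨c, hc, hcd⟩ := hd
  obtain ⟨p1, p2, p3, p4, p5⟩ := hG.par c hc
  have hpar : ∀ i : ℕ, (c.1 + c.2.1 + (-(r : ℤ) + c.2.2.1 + 2 * (i : ℤ))) % 2 = 0 := by
    intro i; omega
  have hcard : (Finset.range r).card = r := Finset.card_range r
  rw [← hcard]
  apply Finset.card_le_card_of_injOn (fun i : ℕ => a * P.mk c.1 c.2.1 (-(r : ℤ) + c.2.2.1 + 2 * (i : ℤ)) (hpar i))
  · intro i hi
    rw [Finset.mem_coe, Finset.mem_range] at hi
    rw [Finset.mem_coe, hcard, Finset.mem_filter]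
    constructor
    · apply Finset.mul_mem_mul ha
      rw [mem_prism]
      refine ⟨c, hc, rfl, rfl, ?_, ?_⟩
      · rw [mk_c3]; omega
      · rw [mk_c3]; omega
    · rw [prj_mul, ← hab, ← hcd]
      rfl
  · intro i _ j _ hij
    have h1 := mul_left_cancel hij
    have h2 := congrArg P.c3 h1
    rw [mk_c3, mk_c3] at h2
    omega

/-- upper bound for the product -/
theorem prism_upper (Y : List P) (t : List (ℤ × ℤ × ℤ × ℤ)) (hG : Good Y t) (r : ℕ) (A : Finset P)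
    (hA : ∀ a ∈ A, a ∈ Y) :
    (A * prism t (r : ℤ)).card ≤ (r + 4) * (cv A (base t)).card := by
  apply Finset.card_le_mul_card_image_of_maps_to (f := prj) (prj_mem_cv A t r)
  intro b _
  have key : ∀ u ∈ (A * prism t (r : ℤ)).filter (fun u => prj u = b), -(r : ℤ) - 2 ≤ u.c3 ∧ u.c3 ≤ r + 5 := by
    intro u hu
    rw [Finset.mem_filter, Finset.mem_mul] at hu
    obtain ⟨⟨a, ha, s, hs, rfl⟩, _⟩ := hu
    rw [mem_prism] at hs
    obtain ⟨c, hc, h1, h2, h3, h4⟩ := hs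
    have h5 := hG.rng a (hA a ha) c hc
    unfold loO hiO at h5
    rw [mul_c3]
    rcases sg_cases a.c1 with ⟨_, hs⟩ | ⟨_, hs⟩
    · rw [hs] at h5 ⊢
      simp only [if_true] at h5
      omega
    · rw [hs] at h5 ⊢
      rw [if_neg (by decide), if_neg (by decide)] at h5
      omega
  have hcard : (Finset.range (r + 4)).card = r + 4 := Finset.card_range _
  rw [← hcard]
  apply Finset.card_le_card_of_injOn (fun u : P => ((u.c3 + r + 2) / 2).toNat)
  · intro u hu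
    rw [Finset.mem_coe] at hu
    have := key u hu
    rw [Finset.mem_coe, Finset.mem_range]
    show ((u.c3 + r + 2) / 2).toNat < r + 4
    omega
  · intro u hu v hv huv
    rw [Finset.mem_coe] at hu hv
    have k1 := key u hu
    have k2 := key v hv
    rw [Finset.mem_filter] at hu hv
    have e : prj u = prj v := by rw [hu.2, hv.2]
    unfold prj at e
    rw [Prod.mk.injEq] at e
    have q1 := u.par
    have q2 := v.par
    have huv' : ((u.c3 + r + 2) / 2).toNat = ((v.c3 + r + 2) / 2).toNat := huv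
    apply P.ext e.1 e.2
    have e1 := e.1
    have e2 := e.2
    omega

/-- no product is uniquely represented -/
theorem nonuniq (Y : List P) (t : List (ℤ × ℤ × ℤ × ℤ)) (hG : Good Y t) (R : ℤ) (hR : 100 ≤ R) :
    ∀ x ∈ Y, ∀ s ∈ prism t R, ∃ x' ∈ Y, x' ≠ x ∧ ∃ s' ∈ prism t R, x' * s' = x * s := by
  intro x hx s hs
  rw [mem_prism] at hs
  obtain ⟨c, hc, h1, h2, h3, h4⟩ := hs
  have hprj : prj (x * s) = pl x (c.1, c.2.1) := by
    rw [prj_mul]; unfold prj; rw [h1, h2]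
  have hlo : -R + loO x c ≤ (x * s).c3 := by
    unfold loO
    rw [mul_c3]
    rcases sg_cases x.c1 with ⟨_, hs⟩ | ⟨_, hs⟩
    · rw [hs, if_pos rfl]; omega
    · rw [hs, if_neg (by decide)]; omega
  have hhi : (x * s).c3 ≤ R + hiO x c := by
    unfold hiO
    rw [mul_c3]
    rcases sg_cases x.c1 with ⟨_, hs⟩ | ⟨_, hs⟩
    · rw [hs, if_pos rfl]; omega
    · rw [hs, if_neg (by decide)]; omega
  set u : P := x * s with hu
  -- the common conclusion
  have fin : ∀ x' ∈ Y, x' ≠ x → ∀ c' ∈ t, pl x' (c'.1, c'.2.1) = pl x (c.1, c.2.1) →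
      -R + loO x' c' ≤ u.c3 → u.c3 ≤ R + hiO x' c' →
      ∃ x' ∈ Y, x' ≠ x ∧ ∃ s' ∈ prism t R, x' * s' = u := by
    intro x' hx' hne c' hc' hpl hl hh
    refine ⟨x', hx', hne, x'⁻¹ * u, ?_, by rw [mul_inv_cancel_left]⟩
    have e1 : pl x' (prj (x'⁻¹ * u)) = pl x' (c'.1, c'.2.1) := by
      rw [← prj_mul, mul_inv_cancel_left, hprj, hpl]
    have e2 := pl_inj x' e1
    unfold prj at e2
    rw [Prod.mk.injEq] at e2
    rw [mem_prism]
    refine ⟨c', hc', e2.1, e2.2, ?_⟩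
    have e3 : u.c3 = x'.c3 + sg x'.c1 * (x'⁻¹ * u).c3 := by
      rw [← mul_c3, mul_inv_cancel_left]
    unfold loO at hl
    unfold hiO at hh
    rcases sg_cases x'.c1 with ⟨_, hs⟩ | ⟨_, hs⟩
    · rw [hs] at e3
      rw [hs, if_pos rfl] at hl hh
      omega
    · rw [hs] at e3
      rw [hs, if_neg (by decide)] at hl hh
      omega
  rcases le_or_gt u.c3 0 with h0 | h0
  · obtain ⟨x', hx', hne, c', hc', hpl, hle⟩ := hG.lo x hx c hc
    have hr := hG.rng x' hx' c' hc'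
    have hp := (hG.par c' hc').2.2
    apply fin x' hx' hne c' hc' hpl (by omega)
    have : loO x' c' - 2 ≤ hiO x' c' := by
      unfold loO hiO
      rcases sg_cases x'.c1 with ⟨_, hs⟩ | ⟨_, hs⟩
      · rw [hs, if_pos rfl, if_pos rfl]; omega
      · rw [hs, if_neg (by decide), if_neg (by decide)]; omega
    omega
  · obtain ⟨x', hx', hne, c', hc', hpl, hle⟩ := hG.hi x hx c hc
    have hr := hG.rng x' hx' c' hc'
    have hp := (hG.par c' hc').2.2
    apply fin x' hx' hne c' hc' hpl ?_ (by omega)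
    have : loO x' c' - 2 ≤ hiO x' c' := by
      unfold loO hiO
      rcases sg_cases x'.c1 with ⟨_, hs⟩ | ⟨_, hs⟩
      · rw [hs, if_pos rfl, if_pos rfl]; omega
      · rw [hs, if_neg (by decide), if_neg (by decide)]; omega
    omega

end Pool.Agent.Helper677.Ham
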