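import Mathlib

set_option autoImplicit false

namespace Pool.Agent.Helper677.Ham

/-- the sign `(-1)^n` -/
def sg (n : ℤ) : ℤ := if n % 2 = 0 then 1 else -1

theorem sg_cases (n : ℤ) : (n % 2 = 0 ∧ sg n = 1) ∨ (n % 2 = 1 ∧ sg n = -1) := by
  unfold sg
  rcases Int.emod_two_eq_zero_or_one n with h | h
  · left; simp [h]
  · right; simp [h]

theorem sg_mul_self (n : ℤ) : sg n * sg n = 1 := by
  rcases sg_cases n with ⟨_, h⟩ | ⟨_, h⟩ <;> simp [h]

theorem sg_congr {a b : ℤ} (h : a % 2 = b % 2) : sg a = sg b := by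
  unfold sg; rw [h]

theorem sg_mul_mod (n a : ℤ) : (sg n * a) % 2 = a % 2 := by
  rcases sg_cases n with ⟨_, h⟩ | ⟨_, h⟩ <;> rw [h] <;> omega

theorem sg_add (a b : ℤ) : sg (a + b) = sg a * sg b := by
  rcases sg_cases a with ⟨h1, h2⟩ | ⟨h1, h2⟩ <;> rcases sg_cases b with ⟨h3, h4⟩ | ⟨h3, h4⟩ <;>
    rcases sg_cases (a + b) with ⟨h5, h6⟩ | ⟨h5, h6⟩ <;> rw [h2, h4, h6] <;> omega

theorem sg_sg_mul (a b : ℤ) : sg (sg a * b) = sg b := sg_congr (sg_mul_mod a b)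

theorem sg_neg (a : ℤ) : sg (-a) = sg a := sg_congr (by omega)

/-- The Hantzsche–Wendt (Promislow) group: integer triples with even sum. -/
def P : Type := {u : ℤ × ℤ × ℤ // (u.1 + u.2.1 + u.2.2) % 2 = 0}

instance : DecidableEq P := inferInstanceAs (DecidableEq {u : ℤ × ℤ × ℤ // (u.1 + u.2.1 + u.2.2) % 2 = 0})

namespace P

def c1 (u : P) : ℤ := u.1.1
def c2 (u : P) : ℤ := u.1.2.1
def c3 (u : P) : ℤ := u.1.2.2

theorem par (u : P) : (u.c1 + u.c2 + u.c3) % 2 = 0 := u.2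

def mk (a b c : ℤ) (h : (a + b + c) % 2 = 0) : P := ⟨(a, b, c), h⟩

@[simp] theorem mk_c1 (a b c : ℤ) (h) : (mk a b c h).c1 = a := rfl
@[simp] theorem mk_c2 (a b c : ℤ) (h) : (mk a b c h).c2 = b := rfl
@[simp] theorem mk_c3 (a b c : ℤ) (h) : (mk a b c h).c3 = c := rfl

theorem ext {u v : P} (h1 : u.c1 = v.c1) (h2 : u.c2 = v.c2) (h3 : u.c3 = v.c3) : u = v := by
  apply Subtype.ext
  apply Prod.ext h1
  exact Prod.ext h2 h3

theorem ext_iff {u v : P} : u = v ↔ u.c1 = v.c1 ∧ u.c2 = v.c2 ∧ u.c3 = v.c3 :=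
  ⟨fun h => by subst h; exact ⟨rfl, rfl, rfl⟩, fun ⟨a, b, c⟩ => ext a b c⟩

/-- multiplication -/
def mulP (u w : P) : P :=
  mk (u.c1 + sg u.c2 * w.c1) (u.c2 + sg u.c3 * w.c2) (u.c3 + sg u.c1 * w.c3) (by
    have h1 := sg_mul_mod u.c2 w.c1
    have h2 := sg_mul_mod u.c3 w.c2
    have h3 := sg_mul_mod u.c1 w.c3
    have h4 := u.par
    have h5 := w.par
    omega)

/-- inverse -/
def invP (u : P) : P :=
  mk (-(sg u.c2 * u.c1)) (-(sg u.c3 * u.c2)) (-(sg u.c1 * u.c3)) (by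
    have h1 := sg_mul_mod u.c2 u.c1
    have h2 := sg_mul_mod u.c3 u.c2
    have h3 := sg_mul_mod u.c1 u.c3
    have h4 := u.par
    omega)

/-- identity -/
def oneP : P := mk 0 0 0 (by norm_num)

instance : Mul P := ⟨mulP⟩
instance : Inv P := ⟨invP⟩
instance : One P := ⟨oneP⟩

@[simp] theorem mul_c1 (u w : P) : (u * w).c1 = u.c1 + sg u.c2 * w.c1 := rfl
@[simp] theorem mul_c2 (u w : P) : (u * w).c2 = u.c2 + sg u.c3 * w.c2 := rfl
@[simp] theorem mul_c3 (u w : P) : (u * w).c3 = u.c3 + sg u.c1 * w.c3 := rfl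
@[simp] theorem inv_c1 (u : P) : (u⁻¹).c1 = -(sg u.c2 * u.c1) := rfl
@[simp] theorem inv_c2 (u : P) : (u⁻¹).c2 = -(sg u.c3 * u.c2) := rfl
@[simp] theorem inv_c3 (u : P) : (u⁻¹).c3 = -(sg u.c1 * u.c3) := rfl
@[simp] theorem one_c1 : (1 : P).c1 = 0 := rfl
@[simp] theorem one_c2 : (1 : P).c2 = 0 := rfl
@[simp] theorem one_c3 : (1 : P).c3 = 0 := rfl

instance : Group P := Group.ofLeftAxioms
  (by
    intro u v w
    apply ext <;> simp only [mul_c1, mul_c2, mul_c3, sg_add, sg_sg_mul] <;> ring)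
  (by
    intro u
    have h0 : sg 0 = 1 := by simp [sg]
    apply ext <;> simp [h0])
  (by
    intro u
    apply ext <;> simp only [mul_c1, mul_c2, mul_c3, inv_c1, inv_c2, inv_c3, one_c1, one_c2, one_c3,
      sg_neg, sg_sg_mul] <;> ring)

theorem pow_even (t : P) (h1 : t.c1 % 2 = 0) (h2 : t.c2 % 2 = 0) (h3 : t.c3 % 2 = 0) (n : ℕ) :
    (t ^ n).c1 = n * t.c1 ∧ (t ^ n).c2 = n * t.c2 ∧ (t ^ n).c3 = n * t.c3 := by
  have e1 : sg t.c1 = 1 := by simp [sg, h1]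
  have e2 : sg t.c2 = 1 := by simp [sg, h2]
  have e3 : sg t.c3 = 1 := by simp [sg, h3]
  induction n with
  | zero => simp
  | succ n ih =>
    rw [pow_succ']
    simp only [mul_c1, mul_c2, mul_c3, e1, e2, e3, ih.1, ih.2.1, ih.2.2]
    push_cast
    refine ⟨by ring, by ring, by ring⟩

theorem torsion_free (g : P) (hg : g ≠ 1) : ¬ IsOfFinOrder g := by
  intro hf
  obtain ⟨n, hn, hgn⟩ := isOfFinOrder_iff_pow_eq_one.1 hf
  set t : P := g * g with ht
  have htn : t ^ n = 1 := by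
    rw [ht, ← pow_two, ← pow_mul, mul_comm, pow_mul, hgn, one_pow]
  have c1 : t.c1 = g.c1 + sg g.c2 * g.c1 := rfl
  have c2 : t.c2 = g.c2 + sg g.c3 * g.c2 := rfl
  have c3 : t.c3 = g.c3 + sg g.c1 * g.c3 := rfl
  have m1 := sg_mul_mod g.c2 g.c1
  have m2 := sg_mul_mod g.c3 g.c2
  have m3 := sg_mul_mod g.c1 g.c3
  obtain ⟨p1, p2, p3⟩ := pow_even t (by omega) (by omega) (by omega) n
  rw [htn] at p1 p2 p3
  have hn' : (n : ℤ) ≠ 0 := by exact_mod_cast hn.ne'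
  have z1 : t.c1 = 0 := by
    rcases mul_eq_zero.1 p1.symm with h | h
    · exact absurd h hn'
    · exact h
  have z2 : t.c2 = 0 := by
    rcases mul_eq_zero.1 p2.symm with h | h
    · exact absurd h hn'
    · exact h
  have z3 : t.c3 = 0 := by
    rcases mul_eq_zero.1 p3.symm with h | h
    · exact absurd h hn'
    · exact h
  rw [z1] at c1
  rw [z2] at c2
  rw [z3] at c3
  have hp := g.par
  apply hg
  rcases sg_cases g.c1 with ⟨a1, b1⟩ | ⟨a1, b1⟩ <;> rcases sg_cases g.c2 with ⟨a2, b2⟩ | ⟨a2, b2⟩ <;>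
    rcases sg_cases g.c3 with ⟨a3, b3⟩ | ⟨a3, b3⟩ <;> rw [b2] at c1 <;> rw [b3] at c2 <;> rw [b1] at c3 <;>
    (refine ext ?_ ?_ ?_ <;> simp only [one_c1, one_c2, one_c3] <;> omega)

/-- cyclic permutation of the coordinates, an automorphism -/
def tau : P ≃* P where
  toFun u := mk u.c2 u.c3 u.c1 (by have := u.par; omega)
  invFun u := mk u.c3 u.c1 u.c2 (by have := u.par; omega)
  left_inv u := by apply ext <;> simp
  right_inv u := by apply ext <;> simp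
  map_mul' u v := by apply ext <;> simp

@[simp] theorem tau_c1 (u : P) : (tau u).c1 = u.c2 := rfl
@[simp] theorem tau_c2 (u : P) : (tau u).c2 = u.c3 := rfl
@[simp] theorem tau_c3 (u : P) : (tau u).c3 = u.c1 := rfl

/-- action of `P` on the plane of the first two coordinates -/
def pl (a : P) (p : ℤ × ℤ) : ℤ × ℤ := (a.c1 + sg a.c2 * p.1, a.c2 + sg a.c3 * p.2)

/-- projection to the plane of the first two coordinates -/
def prj (u : P) : ℤ × ℤ := (u.c1, u.c2)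

theorem prj_mul (a s : P) : prj (a * s) = pl a (prj s) := rfl

theorem pl_mul (a b : P) (p : ℤ × ℤ) : pl (a * b) p = pl a (pl b p) := by
  apply Prod.ext <;> simp only [pl, mul_c1, mul_c2, mul_c3, sg_add, sg_sg_mul] <;> ring

theorem pl_one (p : ℤ × ℤ) : pl 1 p = p := by
  have h0 : sg 0 = 1 := by simp [sg]
  apply Prod.ext <;> simp [pl, h0]

theorem pl_inj (a : P) : Function.Injective (pl a) := by
  intro p q h
  have := congrArg (pl a⁻¹) h
  rwa [← pl_mul, ← pl_mul, inv_mul_cancel, pl_one, pl_one] at this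

end P

end Pool.Agent.Helper677.Ham
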