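import Pool.Agent.Helper677.Ham.Planar

set_option autoImplicit false

open Pointwise

namespace Pool.Agent.Helper677.Ham

open P

/-- the large parameter -/
@[irreducible] def rr : ℕ := 1000000

theorem rr_eq : rr = 1000000 := by unfold rr; rfl
theorem rr_even : rr % 2 = 0 := by rw [rr_eq]

@[irreducible] noncomputable def S0 : Finset P := prism tab0 (rr : ℤ)
@[irreducible] noncomputable def S1 : Finset P := (prism tab1 (rr : ℤ)).image tau.symm
@[irreducible] noncomputable def S2 : Finset P := ((prism tab2 (rr : ℤ)).image tau.symm).image tau.symm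
/-- the set `S` -/
@[irreducible] noncomputable def S : Finset P := S0 ∪ (S1 ∪ S2)

theorem S0_eq : S0 = prism tab0 (rr : ℤ) := by unfold S0; rfl

theorem one_mem_S : (1 : P) ∈ S := by
  unfold S
  rw [Finset.mem_union, S0_eq]
  left
  rw [mem_prism]
  exact ⟨_, one_mem_tab0, rfl, rfl, by rw [rr_eq]; decide, by rw [rr_eq]; decide⟩

theorem rot_mul (A B : Finset P) : rot (A * B) = rot A * rot B := by
  unfold rot
  exact Finset.image_mul (tau : P ≃* P)

theorem rot_symm (B : Finset P) : rot (B.image tau.symm) = B := by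
  unfold rot
  rw [Finset.image_image]
  have : (tau ∘ tau.symm : P → P) = id := by
    funext x; simp
  rw [this, Finset.image_id]

theorem rot_S1 : rot S1 = prism tab1 (rr : ℤ) := by
  unfold S1
  exact rot_symm _
theorem rot_S2 : rot (rot S2) = prism tab2 (rr : ℤ) := by
  unfold S2
  rw [rot_symm, rot_symm]

theorem mul_S (A : Finset P) : A * S = (A * S0) ∪ ((A * S1) ∪ (A * S2)) := by
  unfold S
  rw [Finset.mul_union, Finset.mul_union]

theorem card_mul_S1 (A : Finset P) : (A * S1).card = (rot A * prism tab1 (rr : ℤ)).card := by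
  rw [← card_rot, rot_mul, rot_S1]

theorem card_mul_S2 (A : Finset P) : (A * S2).card = (rot (rot A) * prism tab2 (rr : ℤ)).card := by
  rw [← card_rot, rot_mul, ← card_rot, rot_mul, rot_S2]

theorem prj_S0 (A : Finset P) (u : P) (hu : u ∈ A * S0) : prj u ∈ cv A D0 := by
  rw [S0_eq] at hu
  exact prj_mem_cv A tab0 _ u hu

theorem prj_S1 (A : Finset P) (u : P) (hu : u ∈ A * S1) : prj (tau u) ∈ cv (rot A) D1 := by
  apply prj_mem_cv (rot A) tab1 (rr : ℤ)
  rw [← rot_S1, ← rot_mul, mem_rot]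
  exact ⟨u, hu, rfl⟩

theorem prj_S2 (A : Finset P) (u : P) (hu : u ∈ A * S2) : prj (tau (tau u)) ∈ cv (rot (rot A)) D2 := by
  apply prj_mem_cv (rot (rot A)) tab2 (rr : ℤ)
  rw [← rot_S2, ← rot_mul, ← rot_mul, mem_rot]
  exact ⟨tau u, (mem_rot _ _).2 ⟨u, hu, rfl⟩, rfl⟩

theorem inter_card (U V : Finset P) (E F : Finset (ℤ × ℤ)) (f g : P → ℤ × ℤ)
    (hf : ∀ u ∈ U, f u ∈ E) (hg : ∀ u ∈ V, g u ∈ F)
    (hinj : ∀ u v, f u = f v → g u = g v → u = v) : (U ∩ V).card ≤ E.card * F.card := by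
  rw [← Finset.card_product]
  apply Finset.card_le_card_of_injOn (fun u => (f u, g u))
  · intro u hu
    rw [Finset.mem_coe, Finset.mem_inter] at hu
    rw [Finset.mem_coe, Finset.mem_product]
    exact ⟨hf u hu.1, hg u hu.2⟩
  · intro u _ v _ huv
    have h : (f u, g u) = (f v, g v) := huv
    rw [Prod.mk.injEq] at h
    exact hinj u v h.1 h.2

theorem inter01 (A : Finset P) : ((A * S0) ∩ (A * S1)).card ≤ (cv A D0).card * (cv (rot A) D1).card := by
  apply inter_card _ _ _ _ prj (fun u => prj (tau u)) (prj_S0 A) (prj_S1 A)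
  intro u v h1 h2
  have h2' : prj (tau u) = prj (tau v) := h2
  unfold prj at h1 h2'
  rw [Prod.mk.injEq] at h1 h2'
  exact P.ext h1.1 h1.2 h2'.2

theorem inter02 (A : Finset P) : ((A * S0) ∩ (A * S2)).card ≤ (cv A D0).card * (cv (rot (rot A)) D2).card := by
  apply inter_card _ _ _ _ prj (fun u => prj (tau (tau u))) (prj_S0 A) (prj_S2 A)
  intro u v h1 h2
  have h2' : prj (tau (tau u)) = prj (tau (tau v)) := h2
  unfold prj at h1 h2'
  rw [Prod.mk.injEq] at h1 h2'
  exact P.ext h1.1 h1.2 h2'.1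

theorem inter12 (A : Finset P) : ((A * S1) ∩ (A * S2)).card ≤ (cv (rot A) D1).card * (cv (rot (rot A)) D2).card := by
  apply inter_card _ _ _ _ (fun u => prj (tau u)) (fun u => prj (tau (tau u))) (prj_S1 A) (prj_S2 A)
  intro u v h1 h2
  have h1' : prj (tau u) = prj (tau v) := h1
  have h2' : prj (tau (tau u)) = prj (tau (tau v)) := h2
  unfold prj at h1' h2'
  rw [Prod.mk.injEq] at h1' h2'
  exact P.ext h2'.2 h1'.1 h1'.2

/-- lower bound for the product with `S` -/
theorem lower (A : Finset P) (hc : A.card = 11) : rr * cost A ≤ (A * S).card + 751652 := by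
  have l0 : rr * (cv A D0).card ≤ (A * S0).card := by
    rw [S0_eq]; exact prism_lower Xs tab0 good0 rr rr_even A
  have l1 : rr * (cv (rot A) D1).card ≤ (A * S1).card := by
    rw [card_mul_S1]; exact prism_lower Xs1 tab1 good1 rr rr_even (rot A)
  have l2 : rr * (cv (rot (rot A)) D2).card ≤ (A * S2).card := by
    rw [card_mul_S2]; exact prism_lower Xs2 tab2 good2 rr rr_even (rot (rot A))
  have i01 := inter01 A
  have i02 := inter02 A
  have i12 := inter12 A
  have c0 : (cv A D0).card ≤ 550 := by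
    have := card_cv_le A D0
    rw [hc, card_D0] at this; omega
  have c1 : (cv (rot A) D1).card ≤ 539 := by
    have := card_cv_le (rot A) D1
    rw [card_rot, hc, card_D1] at this; omega
  have c2 : (cv (rot (rot A)) D2).card ≤ 418 := by
    have := card_cv_le (rot (rot A)) D2
    rw [card_rot, card_rot, hc, card_D2] at this; omega
  have m01 : (cv A D0).card * (cv (rot A) D1).card ≤ 550 * 539 := Nat.mul_le_mul c0 c1
  have m02 : (cv A D0).card * (cv (rot (rot A)) D2).card ≤ 550 * 418 := Nat.mul_le_mul c0 c2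
  have m12 : (cv (rot A) D1).card * (cv (rot (rot A)) D2).card ≤ 539 * 418 := Nat.mul_le_mul c1 c2
  have u1 := Finset.card_union_add_card_inter (A * S0) ((A * S1) ∪ (A * S2))
  have u2 := Finset.card_union_add_card_inter (A * S1) (A * S2)
  have u3 : ((A * S0) ∩ ((A * S1) ∪ (A * S2))).card ≤ ((A * S0) ∩ (A * S1)).card + ((A * S0) ∩ (A * S2)).card := by
    rw [Finset.inter_union_distrib_left]
    exact Finset.card_union_le _ _
  rw [mul_S]
  unfold cost
  rw [mul_add, mul_add]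
  omega

theorem mem_X (x : P) : x ∈ X ↔ x ∈ Xs := by
  unfold X; rw [List.mem_toFinset]

theorem mem_Xs1 (x : P) (hx : x ∈ Xs) : tau x ∈ Xs1 := List.mem_map_of_mem hx
theorem mem_Xs2 (x : P) (hx : x ∈ Xs1) : tau x ∈ Xs2 := List.mem_map_of_mem hx

/-- upper bound for the product of `X` with `S` -/
theorem upper : (X * S).card ≤ (rr + 4) * 221 := by
  have r0 : ∀ a ∈ X, a ∈ Xs := fun a ha => (mem_X a).1 ha
  have r1 : ∀ a ∈ rot X, a ∈ Xs1 := by
    intro a ha
    obtain ⟨x, hx, rfl⟩ := (mem_rot _ _).1 ha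
    exact mem_Xs1 x (r0 x hx)
  have r2 : ∀ a ∈ rot (rot X), a ∈ Xs2 := by
    intro a ha
    obtain ⟨x, hx, rfl⟩ := (mem_rot _ _).1 ha
    exact mem_Xs2 x (r1 x hx)
  have l0 : (X * S0).card ≤ (rr + 4) * (cv X D0).card := by
    rw [S0_eq]; exact prism_upper Xs tab0 good0 rr X r0
  have l1 : (X * S1).card ≤ (rr + 4) * (cv (rot X) D1).card := by
    rw [card_mul_S1]; exact prism_upper Xs1 tab1 good1 rr (rot X) r1
  have l2 : (X * S2).card ≤ (rr + 4) * (cv (rot (rot X)) D2).card := by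
    rw [card_mul_S2]; exact prism_upper Xs2 tab2 good2 rr (rot (rot X)) r2
  have k0 : (cv X D0).card ≤ 72 := by
    have hs : cv X D0 ⊆ img0.toFinset := by
      intro p hp
      obtain ⟨a, ha, d, hd, rfl⟩ := (mem_cv _ _ _).1 hp
      obtain ⟨c, hc, rfl⟩ := (mem_D0 _).1 hd
      rw [List.mem_toFinset]
      exact img0_spec a (r0 a ha) c hc
    have := Finset.card_le_card hs
    have h2 := List.toFinset_card_le img0
    rw [img0_len] at h2
    omega
  have k1 : (cv (rot X) D1).card ≤ 82 := by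
    have hs : cv (rot X) D1 ⊆ img1.toFinset := by
      intro p hp
      obtain ⟨a, ha, d, hd, rfl⟩ := (mem_cv _ _ _).1 hp
      obtain ⟨c, hc, rfl⟩ := (mem_D1 _).1 hd
      rw [List.mem_toFinset]
      exact img1_spec a (r1 a ha) c hc
    have := Finset.card_le_card hs
    have h2 := List.toFinset_card_le img1
    rw [img1_len] at h2
    omega
  have k2 : (cv (rot (rot X)) D2).card ≤ 67 := by
    have hs : cv (rot (rot X)) D2 ⊆ img2.toFinset := by
      intro p hp
      obtain ⟨a, ha, d, hd, rfl⟩ := (mem_cv _ _ _).1 hp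
      obtain ⟨c, hc, rfl⟩ := (mem_D2 _).1 hd
      rw [List.mem_toFinset]
      exact img2_spec a (r2 a ha) c hc
    have := Finset.card_le_card hs
    have h2 := List.toFinset_card_le img2
    rw [img2_len] at h2
    omega
  have u1 := Finset.card_union_le (X * S0) ((X * S1) ∪ (X * S2))
  have u2 := Finset.card_union_le (X * S1) (X * S2)
  rw [mul_S]
  have m0 := Nat.mul_le_mul_left (rr + 4) k0
  have m1 := Nat.mul_le_mul_left (rr + 4) k1
  have m2 := Nat.mul_le_mul_left (rr + 4) k2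
  omega

/-- no product in `X * S` is uniquely represented -/
theorem nonuniqS (x : P) (hx : x ∈ Xs) (s : P) (hs : s ∈ S) : ∃ x' ∈ Xs, x' ≠ x ∧ ∃ s' ∈ S, x' * s' = x * s := by
  have hR : (100 : ℤ) ≤ (rr : ℤ) := by rw [rr_eq]; norm_num
  unfold S at hs ⊢
  rw [Finset.mem_union, Finset.mem_union] at hs
  rcases hs with hs | hs | hs
  · rw [S0_eq] at hs
    obtain ⟨x', hx', hne, s', hs', h⟩ := nonuniq Xs tab0 good0 rr hR x hx s hs
    rw [← S0_eq] at hs'
    exact ⟨x', hx', hne, s', Finset.mem_union_left _ hs', h⟩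
  · have hs1 : tau s ∈ prism tab1 (rr : ℤ) := by
      rw [← rot_S1]; exact (mem_rot _ _).2 ⟨s, hs, rfl⟩
    obtain ⟨y, hy, hne, w, hw, h⟩ := nonuniq Xs1 tab1 good1 rr hR (tau x) (mem_Xs1 x hx) (tau s) hs1
    rw [← rot_S1] at hw
    obtain ⟨s', hs', rfl⟩ := (mem_rot _ _).1 hw
    unfold Xs1 at hy
    obtain ⟨x', hx', rfl⟩ := List.mem_map.1 hy
    refine ⟨x', hx', fun h => hne (by rw [h]), s', Finset.mem_union_right _ (Finset.mem_union_left _ hs'), ?_⟩
    rw [← map_mul, ← map_mul] at h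
    exact tau.injective h
  · have hs1 : tau (tau s) ∈ prism tab2 (rr : ℤ) := by
      rw [← rot_S2]; exact (mem_rot _ _).2 ⟨tau s, (mem_rot _ _).2 ⟨s, hs, rfl⟩, rfl⟩
    obtain ⟨y, hy, hne, w, hw, h⟩ := nonuniq Xs2 tab2 good2 rr hR (tau (tau x)) (mem_Xs2 _ (mem_Xs1 x hx))
      (tau (tau s)) hs1
    rw [← rot_S2] at hw
    obtain ⟨w', hw', rfl⟩ := (mem_rot _ _).1 hw
    obtain ⟨s', hs', rfl⟩ := (mem_rot _ _).1 hw'
    unfold Xs2 at hy
    obtain ⟨y', hy', rfl⟩ := List.mem_map.1 hy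
    unfold Xs1 at hy'
    obtain ⟨x', hx', rfl⟩ := List.mem_map.1 hy'
    refine ⟨x', hx', fun h => hne (by rw [h]), s', Finset.mem_union_right _ (Finset.mem_union_right _ hs'), ?_⟩
    rw [← map_mul, ← map_mul, ← map_mul, ← map_mul] at h
    exact tau.injective (tau.injective h)

/-! ### translation invariance -/

/-- left translate -/
def tr (g : P) (A : Finset P) : Finset P := A.image (fun a => g * a)

theorem mem_tr (g : P) (A : Finset P) (u : P) : u ∈ tr g A ↔ ∃ a ∈ A, g * a = u := by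
  unfold tr; rw [Finset.mem_image]

theorem card_tr (g : P) (A : Finset P) : (tr g A).card = A.card :=
  Finset.card_image_of_injective _ (mul_right_injective g)

theorem rot_tr (g : P) (A : Finset P) : rot (tr g A) = tr (tau g) (rot A) := by
  ext u
  rw [mem_rot, mem_tr]
  constructor
  · rintro ⟨a, ha, rfl⟩
    obtain ⟨b, hb, rfl⟩ := (mem_tr _ _ _).1 ha
    exact ⟨tau b, (mem_rot _ _).2 ⟨b, hb, rfl⟩, (map_mul _ _ _).symm⟩
  · rintro ⟨a, ha, rfl⟩
    obtain ⟨b, hb, rfl⟩ := (mem_rot _ _).1 ha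
    exact ⟨g * b, (mem_tr _ _ _).2 ⟨b, hb, rfl⟩, map_mul _ _ _⟩

theorem cv_tr (g : P) (A : Finset P) (D : Finset (ℤ × ℤ)) : (cv (tr g A) D).card = (cv A D).card := by
  have h : cv (tr g A) D = (cv A D).image (pl g) := by
    ext p
    rw [mem_cv, Finset.mem_image]
    constructor
    · rintro ⟨a, ha, d, hd, rfl⟩
      obtain ⟨b, hb, rfl⟩ := (mem_tr _ _ _).1 ha
      exact ⟨pl b d, (mem_cv _ _ _).2 ⟨b, hb, d, hd, rfl⟩, (pl_mul g b d).symm⟩
    · rintro ⟨q, hq, rfl⟩
      obtain ⟨b, hb, d, hd, rfl⟩ := (mem_cv _ _ _).1 hq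
      exact ⟨g * b, (mem_tr _ _ _).2 ⟨b, hb, rfl⟩, d, hd, pl_mul g b d⟩
  rw [h, Finset.card_image_of_injective _ (pl_inj g)]

theorem cost_tr (g : P) (A : Finset P) : cost (tr g A) = cost A := by
  unfold cost
  rw [rot_tr, rot_tr, cv_tr, cv_tr, cv_tr]

/-- eleven element sets have products at least as large as `X * S` -/
theorem main (A : Finset P) (hc : A.card = 11) : (X * S).card ≤ (A * S).card := by
  rcases Nat.lt_or_ge 221 (cost A) with hF | hF
  · have h1 := lower A hc
    have h2 := upper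
    have h3 : rr * 222 ≤ rr * cost A := Nat.mul_le_mul_left _ hF
    rw [rr_eq] at h1 h2 h3
    omega
  · -- translate to contain the identity
    have hne : A.Nonempty := by
      rw [← Finset.card_pos]; omega
    obtain ⟨a0, ha0⟩ := hne
    have h1 : (1 : P) ∈ tr a0⁻¹ A := (mem_tr _ _ _).2 ⟨a0, ha0, inv_mul_cancel a0⟩
    obtain ⟨x, hx, hall⟩ := planar (tr a0⁻¹ A) h1 (by rw [card_tr, hc]) (by rw [cost_tr]; exact hF)
    have hsub : A ⊆ tr (a0 * x⁻¹) X := by
      intro a ha
      obtain ⟨y, hy, hay⟩ := hall (a0⁻¹ * a) ((mem_tr _ _ _).2 ⟨a, ha, rfl⟩)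
      refine (mem_tr _ _ _).2 ⟨y, (mem_X y).2 hy, ?_⟩
      rw [mul_assoc, ← hay, mul_inv_cancel_left]
    set g := a0 * x⁻¹ with hg
    have hcard : (tr g X \ A).card = 1 := by
      rw [Finset.card_sdiff_of_subset hsub, card_tr, card_X, hc]
    have hsub2 : tr g (X * S) ⊆ A * S := by
      intro u hu
      obtain ⟨v, hv, rfl⟩ := (mem_tr _ _ _).1 hu
      obtain ⟨y, hy, s, hs, rfl⟩ := Finset.mem_mul.1 hv
      by_cases hyA : g * y ∈ A
      · rw [← mul_assoc]; exact Finset.mul_mem_mul hyA hs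
      · obtain ⟨y', hy', hne, s', hs', he⟩ := nonuniqS y ((mem_X y).1 hy) s hs
        rw [← he, ← mul_assoc]
        apply Finset.mul_mem_mul _ hs'
        by_contra hyA'
        have m1 : g * y ∈ tr g X \ A := Finset.mem_sdiff.2 ⟨(mem_tr _ _ _).2 ⟨y, hy, rfl⟩, hyA⟩
        have m2 : g * y' ∈ tr g X \ A :=
          Finset.mem_sdiff.2 ⟨(mem_tr _ _ _).2 ⟨y', (mem_X y').2 hy', rfl⟩, hyA'⟩
        have := Finset.card_le_one.1 (le_of_eq hcard) _ m1 _ m2
        exact hne (mul_left_cancel this).symm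
    have h2 := Finset.card_le_card hsub2
    rw [card_tr] at h2
    exact h2

instance : Nontrivial P := ⟨⟨P.mk 1 1 0 (by decide), 1, by decide⟩⟩

end Pool.Agent.Helper677.Ham
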