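import Pool.Agent.Helper677.Ham.Geo

set_option autoImplicit false

open Pointwise

namespace Pool.Agent.Helper677.Ham

open P

/-- the rotated set -/
def rot (A : Finset P) : Finset P := A.image tau

theorem mem_rot (A : Finset P) (u : P) : u ∈ rot A ↔ ∃ a ∈ A, tau a = u := by
  unfold rot; rw [Finset.mem_image]

theorem card_rot (A : Finset P) : (rot A).card = A.card :=
  Finset.card_image_of_injective _ tau.injective

/-- the planar cost -/
def cost (A : Finset P) : ℕ := (cv A D0).card + (cv (rot A) D1).card + (cv (rot (rot A)) D2).card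

/-- index of a planar point of the direction number `j` -/
def idx (j : ℤ) (p : ℤ × ℤ) : ℤ := 32 * p.1 + p.2 + 584 + 1024 * j

/-- all covered indices -/
def G (A : Finset P) : Finset ℤ :=
  (cv A D0).image (idx 0) ∪ ((cv (rot A) D1).image (idx 1) ∪ (cv (rot (rot A)) D2).image (idx 2))

theorem card_G (A : Finset P) : (G A).card ≤ cost A := by
  unfold G cost
  refine le_trans (Finset.card_union_le _ _) ?_
  have h1 : ((cv A D0).image (idx 0)).card ≤ _ := Finset.card_image_le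
  have h2 : ((cv (rot A) D1).image (idx 1)).card ≤ _ := Finset.card_image_le
  have h3 : ((cv (rot (rot A)) D2).image (idx 2)).card ≤ _ := Finset.card_image_le
  have h4 := Finset.card_union_le ((cv (rot A) D1).image (idx 1)) ((cv (rot (rot A)) D2).image (idx 2))
  omega

theorem mem_D0 (p : ℤ × ℤ) : p ∈ D0 ↔ ∃ c ∈ tab0, (c.1, c.2.1) = p := mem_base tab0 p
theorem mem_D1 (p : ℤ × ℤ) : p ∈ D1 ↔ ∃ c ∈ tab1, (c.1, c.2.1) = p := mem_base tab1 p
theorem mem_D2 (p : ℤ × ℤ) : p ∈ D2 ↔ ∃ c ∈ tab2, (c.1, c.2.1) = p := mem_base tab2 p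

/-! ### bits of the masks -/

theorem testBit_maskL (l : List ℕ) (b : ℕ) : (maskL l).testBit b = true ↔ b ∈ l := by
  induction l with
  | nil => simp [maskL]
  | cons h t ih =>
    have e : maskL (h :: t) = 2 ^ h ||| maskL t := rfl
    rw [e, Nat.testBit_or, Bool.or_eq_true, ih, Nat.testBit_two_pow, List.mem_cons]
    constructor
    · rintro (h1 | h1)
      · left; have := of_decide_eq_true h1; exact this.symm
      · right; exact h1
    · rintro (h1 | h1)
      · left; exact decide_eq_true h1.symm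
      · right; exact h1

theorem sel_even {p : ℕ} (h : p % 2 = 0) (a b : ℕ) : sel p a b = a := by
  unfold sel
  have : Nat.beq (Nat.mod p 2) 0 = true := by
    have e : Nat.mod p 2 = 0 := h
    rw [e]; rfl
  rw [this]; rfl

theorem sel_odd {p : ℕ} (h : p % 2 = 1) (a b : ℕ) : sel p a b = b := by
  unfold sel
  have : Nat.beq (Nat.mod p 2) 0 = false := by
    have e : Nat.mod p 2 = 1 := h
    rw [e]; rfl
  rw [this]; rfl

/-- the selected mask -/
theorem sel_mask (tab : List (ℤ × ℤ × ℤ × ℤ)) (p q : ℕ) (pp pn np nn : ℕ)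
    (h1 : pp = maskL (pos 1 1 tab)) (h2 : pn = maskL (pos 1 (-1) tab))
    (h3 : np = maskL (pos (-1) 1 tab)) (h4 : nn = maskL (pos (-1) (-1) tab)) :
    sel p (sel q pp pn) (sel q np nn) = maskL (pos (sg p) (sg q) tab) := by
  have c1 : (p : ℕ) % 2 = 0 ∨ p % 2 = 1 := by omega
  have c2 : (q : ℕ) % 2 = 0 ∨ q % 2 = 1 := by omega
  rcases c1 with c1 | c1 <;> rcases c2 with c2 | c2
  · have e1 : sg (p : ℤ) = 1 := by unfold sg; rw [if_pos (by omega)]
    have e2 : sg (q : ℤ) = 1 := by unfold sg; rw [if_pos (by omega)]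
    rw [sel_even c1, sel_even c2, h1, e1, e2]
  · have e1 : sg (p : ℤ) = 1 := by unfold sg; rw [if_pos (by omega)]
    have e2 : sg (q : ℤ) = -1 := by unfold sg; rw [if_neg (by omega)]
    rw [sel_even c1, sel_odd c2, h2, e1, e2]
  · have e1 : sg (p : ℤ) = -1 := by unfold sg; rw [if_neg (by omega)]
    have e2 : sg (q : ℤ) = 1 := by unfold sg; rw [if_pos (by omega)]
    rw [sel_odd c1, sel_even c2, h3, e1, e2]
  · have e1 : sg (p : ℤ) = -1 := by unfold sg; rw [if_neg (by omega)]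
    have e2 : sg (q : ℤ) = -1 := by unfold sg; rw [if_neg (by omega)]
    rw [sel_odd c1, sel_odd c2, h4, e1, e2]

theorem testBit_shifted (tab : List (ℤ × ℤ × ℤ × ℤ)) (s t : ℤ) (hs : s = 1 ∨ s = -1) (ht : t = 1 ∨ t = -1)
    (hr : ∀ c ∈ tab, -4 ≤ c.1 ∧ c.1 ≤ 5 ∧ -4 ≤ c.2.1 ∧ c.2.1 ≤ 5) (n b : ℕ)
    (h : (Nat.shiftLeft (maskL (pos s t tab)) n).testBit b = true) :
    ∃ c ∈ tab, (b : ℤ) = 32 * (s * c.1) + t * c.2.1 + 176 + n := by
  have h' : ((maskL (pos s t tab)) <<< n).testBit b = true := h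
  rw [Nat.testBit_shiftLeft, Bool.and_eq_true, testBit_maskL] at h'
  obtain ⟨h1, h2⟩ := h'
  have h1' : b ≥ n := of_decide_eq_true h1
  unfold pos at h2
  rw [List.mem_map] at h2
  obtain ⟨c, hc, hcb⟩ := h2
  refine ⟨c, hc, ?_⟩
  have := hr c hc
  rcases hs with rfl | rfl <;> rcases ht with rfl | rfl <;> omega

/-- the element with the natural coordinates -/
def InBox (a : P) : Prop := (-10 ≤ a.c1 ∧ a.c1 ≤ 10) ∧ (-10 ≤ a.c2 ∧ a.c2 ≤ 10) ∧ (-10 ≤ a.c3 ∧ a.c3 ≤ 10)

theorem sg_pm (n : ℤ) : sg n = 1 ∨ sg n = -1 := by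
  rcases sg_cases n with ⟨_, h⟩ | ⟨_, h⟩
  · exact Or.inl h
  · exact Or.inr h

theorem cov_bits (A : Finset P) (a : P) (ha : a ∈ A) (i j k : ℕ) (hi : (i : ℤ) = a.c1 + 10)
    (hj : (j : ℤ) = a.c2 + 10) (hk : (k : ℤ) = a.c3 + 10) (b : ℕ) (hb : (cov i j k).testBit b = true) :
    (b : ℤ) ∈ G A := by
  have e1 : sg (i : ℤ) = sg a.c1 := sg_congr (by omega)
  have e2 : sg (j : ℤ) = sg a.c2 := sg_congr (by omega)
  have e3 : sg (k : ℤ) = sg a.c3 := sg_congr (by omega)
  unfold cov at hb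
  rw [sel_mask tab0 j k _ _ _ _ B0pp_eq B0pn_eq B0np_eq B0nn_eq,
    sel_mask tab1 k i _ _ _ _ B1pp_eq B1pn_eq B1np_eq B1nn_eq,
    sel_mask tab2 i j _ _ _ _ B2pp_eq B2pn_eq B2np_eq B2nn_eq, e1, e2, e3] at hb
  change (_ ||| (_ ||| _) : ℕ).testBit b = true at hb
  rw [Nat.testBit_or, Bool.or_eq_true, Nat.testBit_or, Bool.or_eq_true] at hb
  unfold G
  rw [Finset.mem_union, Finset.mem_union]
  rcases hb with hb | hb | hb
  · left
    obtain ⟨c, hc, hcb⟩ := testBit_shifted tab0 _ _ (sg_pm _) (sg_pm _)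
      (fun c hc => by have := rng_tab0 c hc; omega) _ _ hb
    rw [Finset.mem_image]
    refine ⟨pl a (c.1, c.2.1), ?_, ?_⟩
    · rw [mem_cv]; exact ⟨a, ha, _, (mem_D0 _).2 ⟨c, hc, rfl⟩, rfl⟩
    · rw [hcb]
      simp only [idx, pl, Nat.add_eq, Nat.mul_eq]
      push_cast
      rw [hi, hj]
      ring
  · right; left
    obtain ⟨c, hc, hcb⟩ := testBit_shifted tab1 _ _ (sg_pm _) (sg_pm _)
      (fun c hc => by have := rng_tab1 c hc; omega) _ _ hb
    rw [Finset.mem_image]
    refine ⟨pl (tau a) (c.1, c.2.1), ?_, ?_⟩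
    · rw [mem_cv]; exact ⟨tau a, (mem_rot _ _).2 ⟨a, ha, rfl⟩, _, (mem_D1 _).2 ⟨c, hc, rfl⟩, rfl⟩
    · rw [hcb]
      simp only [idx, pl, Nat.add_eq, Nat.mul_eq, tau_c1, tau_c2, tau_c3]
      push_cast
      rw [hj, hk]
      ring
  · right; right
    obtain ⟨c, hc, hcb⟩ := testBit_shifted tab2 _ _ (sg_pm _) (sg_pm _)
      (fun c hc => by have := rng_tab2 c hc; omega) _ _ hb
    rw [Finset.mem_image]
    refine ⟨pl (tau (tau a)) (c.1, c.2.1), ?_, ?_⟩
    · rw [mem_cv]
      exact ⟨tau (tau a), (mem_rot _ _).2 ⟨tau a, (mem_rot _ _).2 ⟨a, ha, rfl⟩, rfl⟩, _, (mem_D2 _).2 ⟨c, hc, rfl⟩, rfl⟩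
    · rw [hcb]
      simp only [idx, pl, Nat.add_eq, Nat.mul_eq, tau_c1, tau_c2, tau_c3]
      push_cast
      rw [hi, hk]
      ring

theorem pop_le (A : Finset P) (n : ℕ) (h : ∀ b, 72 ≤ b → n.testBit b = true → (b : ℤ) ∈ G A) :
    pop n ≤ cost A := by
  refine le_trans ?_ (card_G A)
  unfold pop
  apply Finset.card_le_card_of_injOn (fun b : ℕ => ((72 + b : ℕ) : ℤ))
  · intro b hb
    rw [Finset.mem_coe, Finset.mem_filter] at hb
    exact h _ (by omega) hb.2
  · intro b _ c _ hbc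
    have : ((72 + b : ℕ) : ℤ) = ((72 + c : ℕ) : ℤ) := hbc
    omega

/-! ### far elements -/

theorem card_cv_ge (A : Finset P) (D : Finset (ℤ × ℤ)) (h1 : (1 : P) ∈ A) : D.card ≤ (cv A D).card := by
  apply Finset.card_le_card
  intro d hd
  rw [mem_cv]
  exact ⟨1, h1, d, hd, pl_one d⟩

theorem card_cv_ge2 (A : Finset P) (D : Finset (ℤ × ℤ)) (h1 : (1 : P) ∈ A) (a : P) (ha : a ∈ A)
    (hd : ∀ d ∈ D, ∀ e ∈ D, pl a d ≠ e) : 2 * D.card ≤ (cv A D).card := by
  have h : D ∪ D.image (pl a) ⊆ cv A D := by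
    intro d hd
    rw [mem_cv]
    rw [Finset.mem_union, Finset.mem_image] at hd
    rcases hd with hd | ⟨e, he, rfl⟩
    · exact ⟨1, h1, d, hd, pl_one d⟩
    · exact ⟨a, ha, e, he, rfl⟩
  have h2 : Disjoint D (D.image (pl a)) := by
    rw [Finset.disjoint_left]
    intro e he he'
    rw [Finset.mem_image] at he'
    obtain ⟨d, hd', hde⟩ := he'
    exact hd d hd' e he hde
  have h3 := Finset.card_le_card h
  rw [Finset.card_union_of_disjoint h2, Finset.card_image_of_injective _ (pl_inj a)] at h3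
  omega

theorem far (A : Finset P) (h1 : (1 : P) ∈ A) (hF : cost A ≤ 221) (a : P) (ha : a ∈ A) : InBox a := by
  have r1 : (1 : P) ∈ rot A := (mem_rot _ _).2 ⟨1, h1, map_one _⟩
  have r2 : (1 : P) ∈ rot (rot A) := (mem_rot _ _).2 ⟨1, r1, map_one _⟩
  have a1 : tau a ∈ rot A := (mem_rot _ _).2 ⟨a, ha, rfl⟩
  have a2 : tau (tau a) ∈ rot (rot A) := (mem_rot _ _).2 ⟨tau a, a1, rfl⟩
  have b0 := card_cv_ge A D0 h1
  have b1 := card_cv_ge (rot A) D1 r1
  have b2 := card_cv_ge (rot (rot A)) D2 r2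
  rw [card_D0] at b0
  rw [card_D1] at b1
  rw [card_D2] at b2
  unfold cost at hF
  by_contra hn
  unfold InBox at hn
  have hcase : (11 ≤ a.c1 ∨ a.c1 ≤ -11) ∨ (11 ≤ a.c2 ∨ a.c2 ≤ -11) ∨ (11 ≤ a.c3 ∨ a.c3 ≤ -11) := by omega
  rcases hcase with h | h | h
  · have k0 : 2 * D0.card ≤ (cv A D0).card := by
      apply card_cv_ge2 A D0 h1 a ha
      intro d hd e he hde
      obtain ⟨c, hc, rfl⟩ := (mem_D0 _).1 hd
      obtain ⟨c', hc', rfl⟩ := (mem_D0 _).1 he
      have q1 := rng_tab0 c hc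
      have q2 := rng_tab0 c' hc'
      unfold pl at hde
      rw [Prod.mk.injEq] at hde
      have e1 := hde.1
      rcases sg_pm a.c2 with hs | hs <;> rw [hs] at e1 <;> simp only at e1 <;> omega
    have k2 : 2 * D2.card ≤ (cv (rot (rot A)) D2).card := by
      apply card_cv_ge2 _ D2 r2 _ a2
      intro d hd e he hde
      obtain ⟨c, hc, rfl⟩ := (mem_D2 _).1 hd
      obtain ⟨c', hc', rfl⟩ := (mem_D2 _).1 he
      have q1 := rng_tab2 c hc
      have q2 := rng_tab2 c' hc'
      unfold pl at hde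
      rw [Prod.mk.injEq] at hde
      have e1 := hde.2
      simp only [tau_c1, tau_c2, tau_c3] at e1
      rcases sg_pm a.c2 with hs | hs <;> rw [hs] at e1 <;> omega
    rw [card_D0] at k0
    rw [card_D2] at k2
    omega
  · have k0 : 2 * D0.card ≤ (cv A D0).card := by
      apply card_cv_ge2 A D0 h1 a ha
      intro d hd e he hde
      obtain ⟨c, hc, rfl⟩ := (mem_D0 _).1 hd
      obtain ⟨c', hc', rfl⟩ := (mem_D0 _).1 he
      have q1 := rng_tab0 c hc
      have q2 := rng_tab0 c' hc'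
      unfold pl at hde
      rw [Prod.mk.injEq] at hde
      have e1 := hde.2
      rcases sg_pm a.c3 with hs | hs <;> rw [hs] at e1 <;> simp only at e1 <;> omega
    have k1 : 2 * D1.card ≤ (cv (rot A) D1).card := by
      apply card_cv_ge2 _ D1 r1 _ a1
      intro d hd e he hde
      obtain ⟨c, hc, rfl⟩ := (mem_D1 _).1 hd
      obtain ⟨c', hc', rfl⟩ := (mem_D1 _).1 he
      have q1 := rng_tab1 c hc
      have q2 := rng_tab1 c' hc'
      unfold pl at hde
      rw [Prod.mk.injEq] at hde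
      have e1 := hde.1
      simp only [tau_c1, tau_c2] at e1
      rcases sg_pm a.c3 with hs | hs <;> rw [hs] at e1 <;> omega
    rw [card_D0] at k0
    rw [card_D1] at k1
    omega
  · have k1 : 2 * D1.card ≤ (cv (rot A) D1).card := by
      apply card_cv_ge2 _ D1 r1 _ a1
      intro d hd e he hde
      obtain ⟨c, hc, rfl⟩ := (mem_D1 _).1 hd
      obtain ⟨c', hc', rfl⟩ := (mem_D1 _).1 he
      have q1 := rng_tab1 c hc
      have q2 := rng_tab1 c' hc'
      unfold pl at hde
      rw [Prod.mk.injEq] at hde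
      have e1 := hde.2
      simp only [tau_c2, tau_c3] at e1
      rcases sg_pm a.c1 with hs | hs <;> rw [hs] at e1 <;> omega
    have k2 : 2 * D2.card ≤ (cv (rot (rot A)) D2).card := by
      apply card_cv_ge2 _ D2 r2 _ a2
      intro d hd e he hde
      obtain ⟨c, hc, rfl⟩ := (mem_D2 _).1 hd
      obtain ⟨c', hc', rfl⟩ := (mem_D2 _).1 he
      have q1 := rng_tab2 c hc
      have q2 := rng_tab2 c' hc'
      unfold pl at hde
      rw [Prod.mk.injEq] at hde
      have e1 := hde.1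
      simp only [tau_c1, tau_c2, tau_c3] at e1
      rcases sg_pm a.c1 with hs | hs <;> rw [hs] at e1 <;> omega
    rw [card_D1] at k1
    rw [card_D2] at k2
    omega

/-! ### the planar theorem -/

theorem codeP_inj {a b : P} (ha : InBox a) (hb : InBox b) (h : codeP a = codeP b) : a = b := by
  unfold codeP at h
  obtain ⟨a1, a2, a3⟩ := ha
  obtain ⟨b1, b2, b3⟩ := hb
  apply P.ext <;> omega

theorem code_eq (a : P) : code (a.c1 + 10).toNat (a.c2 + 10).toNat (a.c3 + 10).toNat = codeP a := rfl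

theorem root_use (A : Finset P) (h1 : (1 : P) ∈ A) (hF : cost A ≤ 221) (a : P) (ha : a ∈ A) (hne : a ≠ 1) :
    codeP a ∈ orderC := by
  have hbox := far A h1 hF a ha
  have hr := rootCheck_true
  unfold rootCheck at hr
  rw [strict_eq] at hr
  obtain ⟨i1, i2, i3⟩ := hbox
  have hr1 := allB_spec _ _ hr (a.c1 + 10).toNat (by omega)
  have hr2 := allB_spec _ _ hr1 (a.c2 + 10).toNat (by omega)
  have hr3 := allB_spec _ _ hr2 (a.c3 + 10).toNat (by omega)
  have hpar : Nat.beq (Nat.mod (Nat.add (Nat.add (a.c1 + 10).toNat (a.c2 + 10).toNat) (a.c3 + 10).toNat) 2) 0 = true := by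
    have := a.par
    have e : Nat.mod (Nat.add (Nat.add (a.c1 + 10).toNat (a.c2 + 10).toNat) (a.c3 + 10).toNat) 2 = 0 := by
      show ((a.c1 + 10).toNat + (a.c2 + 10).toNat + (a.c3 + 10).toNat) % 2 = 0
      omega
    rw [e]; rfl
  rw [hpar, cond_true] at hr3
  have hpc : Nat.ble (pc (Nat.lor (cov 10 10 10) (cov (a.c1 + 10).toNat (a.c2 + 10).toNat (a.c3 + 10).toNat))) 221 = true := by
    apply Nat.ble_eq_true_of_le
    refine le_trans (pc_le_pop _) (le_trans (pop_le A _ ?_) hF)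
    intro b _ hb
    change ((cov 10 10 10) ||| (cov (a.c1 + 10).toNat (a.c2 + 10).toNat (a.c3 + 10).toNat)).testBit b = true at hb
    rw [Nat.testBit_or, Bool.or_eq_true] at hb
    rcases hb with hb | hb
    · exact cov_bits A 1 h1 10 10 10 rfl rfl rfl b hb
    · exact cov_bits A a ha _ _ _ (by omega) (by omega) (by omega) b hb
  rw [hpc, cond_true] at hr3
  have hr4 := hr3
  rw [Bool.or_eq_true, code_eq a] at hr4
  rcases hr4 with h | h
  · exfalso
    apply hne
    have e : codeP a = e0 := Nat.eq_of_beq_eq_true h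
    have e' : codeP (1 : P) = e0 := by decide +kernel
    exact codeP_inj ⟨i1, i2, i3⟩ (far A h1 hF 1 h1) (by rw [e, e'])
  · rw [List.any_eq_true] at h
    obtain ⟨d, hd, hcd⟩ := h
    have : codeP a = d := Nat.eq_of_beq_eq_true hcd
    rw [this]; exact hd

theorem main_use : search trs 400 (cov 10 10 10) 1 [e0] (order.map item) order.length = true := by
  have h := mainCheck_true
  unfold mainCheck at h
  rw [strict_eq, build_eq] at h
  exact h

theorem planar (A : Finset P) (h1 : (1 : P) ∈ A) (hc : A.card = 11) (hF : cost A ≤ 221) :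
    ∃ x ∈ Xs, ∀ a ∈ A, ∃ y ∈ Xs, a = x⁻¹ * y := by
  set codes : Finset ℕ := (A.erase 1).image codeP with hcodes
  have hcc : codes.card = 10 := by
    rw [hcodes, Finset.card_image_of_injOn, Finset.card_erase_of_mem h1, hc]
    intro a ha b hb hab
    rw [Finset.mem_coe, Finset.mem_erase] at ha hb
    exact codeP_inj (far A h1 hF a ha.2) (far A h1 hF b hb.2) hab
  set l := order.map item with hl
  set s := l.filter (fun h => decide (h.1 ∈ codes)) with hs
  have hmapl : l.map Prod.fst = orderC := by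
    rw [hl, List.map_map, ← orderC_eq]
    rfl
  have hlen : 11 ≤ 1 + s.length := by
    have hsub : codes ⊆ (s.map Prod.fst).toFinset := by
      intro c hcm
      rw [List.mem_toFinset, List.mem_map]
      have hcm' := hcm
      rw [hcodes, Finset.mem_image] at hcm'
      obtain ⟨a, ha, hac⟩ := hcm'
      rw [Finset.mem_erase] at ha
      have hmem := root_use A h1 hF a ha.2 ha.1
      rw [← hmapl, List.mem_map] at hmem
      obtain ⟨g, hg, hgc⟩ := hmem
      refine ⟨g, ?_, by rw [hgc, hac]⟩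
      rw [hs, List.mem_filter]
      refine ⟨hg, ?_⟩
      apply decide_eq_true
      rw [hgc, hac]; exact hcm
    have h2 := Finset.card_le_card hsub
    have h3 := List.toFinset_card_le (s.map Prod.fst)
    rw [List.length_map] at h3
    omega
  have hpop : pop (cov 10 10 10 ||| orAll s) ≤ 221 := by
    refine le_trans (pop_le A _ ?_) hF
    intro b hb72 hb
    rw [Nat.testBit_or, Bool.or_eq_true] at hb
    rcases hb with hb | hb
    · exact cov_bits A 1 h1 10 10 10 rfl rfl rfl b hb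
    · rw [testBit_orAll] at hb
      obtain ⟨h, hhs, hhb⟩ := hb
      rw [hs, List.mem_filter] at hhs
      obtain ⟨hhl, hhc⟩ := hhs
      have hhc' := of_decide_eq_true hhc
      rw [hl, List.mem_map] at hhl
      obtain ⟨g, hg, rfl⟩ := hhl
      rw [hcodes, Finset.mem_image] at hhc'
      obtain ⟨a, ha, hac⟩ := hhc'
      rw [Finset.mem_erase] at ha
      have hbox := far A h1 hF a ha.2
      obtain ⟨i1, i2, i3⟩ := hbox
      have hgr := order_rng g hg
      have hac' : ((a.c1 + 10).toNat * 32 + (a.c2 + 10).toNat) * 32 + (a.c3 + 10).toNat =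
          (g.1 * 32 + g.2.1) * 32 + g.2.2.1 := hac
      have hhb' : ((g.2.2.2 % 0x10000000000000000) ||| cov g.1 g.2.1 g.2.2.1).testBit b = true := hhb
      rw [Nat.testBit_or, Bool.or_eq_true] at hhb'
      rcases hhb' with hh | hh
      · exfalso
        have hlt : g.2.2.2 % 0x10000000000000000 < 2 ^ b := by
          have h64 : (2 : ℕ) ^ 64 ≤ 2 ^ b := Nat.pow_le_pow_right (by norm_num) (by omega)
          have : g.2.2.2 % 0x10000000000000000 < 2 ^ 64 := Nat.mod_lt _ (by norm_num)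
          omega
        rw [Nat.testBit_lt_two_pow hlt] at hh
        exact absurd hh (by decide)
      · exact cov_bits A a ha.2 g.1 g.2.1 g.2.2.1 (by omega) (by omega) (by omega) b hh
  obtain ⟨t, ht, _, hall⟩ := search_sound trs 400 (cov 10 10 10) 1 [e0] l order.length
    (by rw [hl, List.length_map]) main_use s List.filter_sublist hlen hpop
  rw [trs_eq, List.mem_map] at ht
  obtain ⟨x, hx, rfl⟩ := ht
  refine ⟨x, hx, ?_⟩
  intro a ha
  by_cases hne : a = 1
  · exact ⟨x, hx, by rw [hne, inv_mul_cancel]⟩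
  · have hmem := root_use A h1 hF a ha hne
    rw [← hmapl, List.mem_map] at hmem
    obtain ⟨g, hg, hgc⟩ := hmem
    have hgs : g ∈ s := by
      rw [hs, List.mem_filter]
      refine ⟨hg, ?_⟩
      apply decide_eq_true
      rw [hgc, hcodes, Finset.mem_image]
      exact ⟨a, Finset.mem_erase.2 ⟨hne, ha⟩, rfl⟩
    have h3 := hall g hgs
    rw [List.mem_map] at h3
    obtain ⟨y, hy, hyc⟩ := h3
    refine ⟨y, hy, ?_⟩
    apply codeP_inj (far A h1 hF a ha) (trs_rng x hx y hy)
    rw [hyc, hgc]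

end Pool.Agent.Helper677.Ham
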