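import Pool.Agent.Helper677.Ham.Data

set_option autoImplicit false

namespace Pool.Agent.Helper677.Ham

theorem strict_eq {α : Type} (x : ℕ) (f : ℕ → α) : strict x f = f x := rfl

/-- the filter test -/
noncomputable def keep (C : ℕ) (h : ℕ × ℕ) : Bool := Nat.ble (pc (Nat.lor C h.2)) 221

theorem filtK_eq (C : ℕ) (l : List (ℕ × ℕ)) : ∀ k : List (ℕ × ℕ) → ℕ → Bool,
    filtK C l k = k (l.filter (keep C)) (l.filter (keep C)).length := by
  induction l with
  | nil => intro k; rfl
  | cons h t ih =>
    intro k
    have e : filtK C (h :: t) k =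
        cond (keep C h) (filtK C t (fun r n => k (h :: r) (Nat.add n 1))) (filtK C t k) := rfl
    rw [e, List.filter_cons]
    cases hk : keep C h with
    | true => simp only [cond_true, if_true]; rw [ih]; rfl
    | false => simp only [cond_false]; rw [ih]; rfl

theorem build_eq (l : List (ℕ × ℕ × ℕ × ℕ)) : ∀ k : List (ℕ × ℕ) → ℕ → Bool,
    build l k = k (l.map item) l.length := by
  induction l with
  | nil => intro k; rfl
  | cons h t ih =>
    intro k
    have e : build (h :: t) k = build t (fun r n => k (item h :: r) (Nat.add n 1)) := rfl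
    rw [e, ih]
    rfl

theorem allB_spec (n : ℕ) (f : ℕ → Bool) (h : allB n f = true) : ∀ i < n, f i = true := by
  induction n with
  | zero => intro i hi; omega
  | succ n ih =>
    have e : allB (n + 1) f = (f n && allB n f) := rfl
    rw [e, Bool.and_eq_true] at h
    intro i hi
    rcases Nat.lt_succ_iff_lt_or_eq.1 hi with h' | h'
    · exact ih h.2 i h'
    · subst h'; exact h.1

/-! ### bit counting -/

/-- number of binary ones at positions `72 ≤ b < 72 + 9 * 342` -/
def pop (n : ℕ) : ℕ := ((Finset.range (9 * 342)).filter (fun b => n.testBit (72 + b) = true)).card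

/-- `∑ i < r, 2 ^ (9 i)` -/
def msk (r : ℕ) : ℕ := ∑ i ∈ Finset.range r, 2 ^ (9 * i)

theorem msk_lt (r : ℕ) : msk r < 2 ^ (9 * r) := by
  induction r with
  | zero => simp [msk]
  | succ r ih =>
    have : msk (r + 1) = msk r + 2 ^ (9 * r) := by unfold msk; rw [Finset.sum_range_succ]
    rw [this]
    have e : 2 ^ (9 * (r + 1)) = 512 * 2 ^ (9 * r) := by rw [mul_add, pow_add]; ring
    rw [e]
    have : 0 < 2 ^ (9 * r) := by positivity
    omega

theorem MM_eq : MM = msk 342 := by
  have h : ∀ r, msk r * 511 = 2 ^ (9 * r) - 1 := by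
    intro r
    induction r with
    | zero => simp [msk]
    | succ r ih =>
      have : msk (r + 1) = msk r + 2 ^ (9 * r) := by unfold msk; rw [Finset.sum_range_succ]
      rw [this, add_mul, ih]
      have e : 2 ^ (9 * (r + 1)) = 512 * 2 ^ (9 * r) := by rw [mul_add, pow_add]; ring
      rw [e]
      have : 0 < 2 ^ (9 * r) := by positivity
      omega
  have h1 := h 342
  have h2 : MM * 511 = 2 ^ (9 * 342) - 1 := by decide +kernel
  have h3 : MM * 511 = msk 342 * 511 := by rw [h1, h2]
  exact Nat.eq_of_mul_eq_mul_right (by norm_num) h3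

theorem land_msk (n r : ℕ) : (n &&& msk r) < 2 ^ (9 * r) ∧
    (n &&& msk r) ≡ ∑ i ∈ Finset.range r, (n.testBit (9 * i)).toNat [MOD 511] := by
  induction r with
  | zero => simp [msk, Nat.ModEq]
  | succ r ih =>
    have hm : msk (r + 1) = 2 ^ (9 * r) ||| msk r := by
      have h1 : msk (r + 1) = 2 ^ (9 * r) * 1 + msk r := by
        unfold msk; rw [Finset.sum_range_succ]; ring
      rw [h1, Nat.two_pow_add_eq_or_of_lt (msk_lt r)]
      simp
    have h2 : n &&& msk (r + 1) = 2 ^ (9 * r) * (n.testBit (9 * r)).toNat + (n &&& msk r) := by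
      rw [hm, Nat.and_or_distrib_left, Nat.two_pow_add_eq_or_of_lt ih.1]
      congr 1
      rw [Nat.and_two_pow]
      ring
    have hpos : 0 < 2 ^ (9 * r) := by positivity
    have e : 2 ^ (9 * (r + 1)) = 512 * 2 ^ (9 * r) := by rw [mul_add, pow_add]; ring
    have hb : (n.testBit (9 * r)).toNat ≤ 1 := Bool.toNat_le _
    constructor
    · rw [h2, e]
      have := ih.1
      nlinarith
    · rw [h2, Finset.sum_range_succ, add_comm]
      apply Nat.ModEq.add ih.2
      have h3 : (2 ^ (9 * r)) ≡ 1 [MOD 511] := by
        rw [pow_mul]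
        have : (2 ^ 9) ≡ 1 [MOD 511] := by decide
        calc (2 ^ 9) ^ r ≡ 1 ^ r [MOD 511] := this.pow r
          _ = 1 := one_pow r
      calc 2 ^ (9 * r) * (n.testBit (9 * r)).toNat ≡ 1 * (n.testBit (9 * r)).toNat [MOD 511] :=
            h3.mul_right _
        _ = (n.testBit (9 * r)).toNat := one_mul _

theorem term_modEq (n s : ℕ) : Nat.land (Nat.shiftRight n (72 + s)) MM ≡
    ∑ i ∈ Finset.range 342, (n.testBit (72 + (9 * i + s))).toNat [MOD 511] := by
  have h := (land_msk (n >>> (72 + s)) 342).2
  rw [← MM_eq] at h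
  have e : ∀ i, (n >>> (72 + s)).testBit (9 * i) = n.testBit (72 + (9 * i + s)) := by
    intro i
    rw [Nat.testBit_shiftRight]
    congr 1
    ring
  simp only [e] at h
  exact h

theorem sum_split (f : ℕ → ℕ) (r : ℕ) : ∑ b ∈ Finset.range (9 * r), f b =
    ∑ i ∈ Finset.range r, (f (9 * i + 0) + (f (9 * i + 1) + (f (9 * i + 2) + (f (9 * i + 3) + (f (9 * i + 4) +
      (f (9 * i + 5) + (f (9 * i + 6) + (f (9 * i + 7) + f (9 * i + 8))))))))) := by
  induction r with
  | zero => simp
  | succ r ih =>
    rw [Finset.sum_range_succ, ← ih, show 9 * (r + 1) = 9 * r + 9 by ring]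
    simp only [Finset.sum_range_succ, Finset.sum_range_succ (n := 9 * r + 8),
      Finset.sum_range_succ (n := 9 * r + 7), Finset.sum_range_succ (n := 9 * r + 6),
      Finset.sum_range_succ (n := 9 * r + 5), Finset.sum_range_succ (n := 9 * r + 4),
      Finset.sum_range_succ (n := 9 * r + 3), Finset.sum_range_succ (n := 9 * r + 2),
      Finset.sum_range_succ (n := 9 * r + 1)]
    ring_nf

theorem pop_eq_sum (n : ℕ) : pop n = ∑ b ∈ Finset.range (9 * 342), (n.testBit (72 + b)).toNat := by
  unfold pop
  rw [Finset.card_filter]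
  apply Finset.sum_congr rfl
  intro b _
  cases n.testBit (72 + b) <;> simp

theorem pc_le_pop (n : ℕ) : pc n ≤ pop n := by
  have h : Nat.add (Nat.land (Nat.shiftRight n 72) MM)
    (Nat.add (Nat.land (Nat.shiftRight n 73) MM)
    (Nat.add (Nat.land (Nat.shiftRight n 74) MM)
    (Nat.add (Nat.land (Nat.shiftRight n 75) MM)
    (Nat.add (Nat.land (Nat.shiftRight n 76) MM)
    (Nat.add (Nat.land (Nat.shiftRight n 77) MM)
    (Nat.add (Nat.land (Nat.shiftRight n 78) MM)
    (Nat.add (Nat.land (Nat.shiftRight n 79) MM)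
      (Nat.land (Nat.shiftRight n 80) MM)))))))) ≡ pop n [MOD 511] := by
    rw [pop_eq_sum, sum_split]
    simp only [Finset.sum_add_distrib]
    exact (term_modEq n 0).add ((term_modEq n 1).add ((term_modEq n 2).add ((term_modEq n 3).add
      ((term_modEq n 4).add ((term_modEq n 5).add ((term_modEq n 6).add ((term_modEq n 7).add
        (term_modEq n 8))))))))
  have h2 : pc n = pop n % 511 := h
  rw [h2]
  exact Nat.mod_le _ _

theorem pop_mono {m n : ℕ} (h : ∀ b, m.testBit b = true → n.testBit b = true) : pop m ≤ pop n := by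
  unfold pop
  apply Finset.card_le_card
  intro b hb
  rw [Finset.mem_filter] at hb ⊢
  exact ⟨hb.1, h _ hb.2⟩

/-! ### soundness of the search -/

/-- disjunction of the masks -/
def orAll (s : List (ℕ × ℕ)) : ℕ := s.foldr (fun h acc => h.2 ||| acc) 0

theorem orAll_cons (h : ℕ × ℕ) (s : List (ℕ × ℕ)) : orAll (h :: s) = h.2 ||| orAll s := rfl

theorem testBit_orAll (s : List (ℕ × ℕ)) (b : ℕ) :
    (orAll s).testBit b = true ↔ ∃ h ∈ s, h.2.testBit b = true := by
  induction s with
  | nil => simp [orAll]
  | cons h t ih => rw [orAll_cons, Nat.testBit_or, Bool.or_eq_true, ih]; simp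

theorem chk_spec (T : List (List ℕ)) (inc : List ℕ) (h : chk T inc = true) :
    ∃ t ∈ T, ∀ c ∈ inc, c ∈ t := by
  unfold chk at h
  rw [List.any_eq_true] at h
  obtain ⟨t, ht, h2⟩ := h
  refine ⟨t, ht, ?_⟩
  intro c hc
  rw [List.all_eq_true] at h2
  have h3 := h2 c hc
  rw [List.any_eq_true] at h3
  obtain ⟨d, hd, h4⟩ := h3
  have : c = d := Nat.eq_of_beq_eq_true h4
  rw [this]; exact hd

theorem search_sound (T : List (List ℕ)) : ∀ (fuel C cnt : ℕ) (inc : List ℕ) (l : List (ℕ × ℕ)) (len : ℕ),
    len = l.length → search T fuel C cnt inc l len = true →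
    ∀ s : List (ℕ × ℕ), s.Sublist l → 11 ≤ cnt + s.length → pop (C ||| orAll s) ≤ 221 →
      ∃ t ∈ T, (∀ c ∈ inc, c ∈ t) ∧ ∀ h ∈ s, h.1 ∈ t := by
  intro fuel
  induction fuel with
  | zero => intro C cnt inc l len _ h; exact absurd h (by simp [search])
  | succ fuel ih =>
    intro C cnt inc l len hlen h s hs hcard hpop
    have hsl : s.length ≤ l.length := hs.length_le
    cases l with
    | nil =>
      have e : search T (fuel + 1) C cnt inc [] len =
        cond (Nat.ble 11 (Nat.add cnt len)) (chk T inc) true := rfl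
      have hs0 : s = [] := List.sublist_nil.1 hs
      subst hs0
      rw [e] at h
      have hb : Nat.ble 11 (Nat.add cnt len) = true := by
        apply Nat.ble_eq_true_of_le
        simp only [List.length_nil, Nat.add_zero] at hcard
        show 11 ≤ cnt + len
        omega
      rw [hb, cond_true] at h
      obtain ⟨t, ht, h2⟩ := chk_spec T inc h
      exact ⟨t, ht, h2, by simp⟩
    | cons g r =>
      have e : search T (fuel + 1) C cnt inc (g :: r) len =
        cond (Nat.ble 11 (Nat.add cnt len))
          ((filtK (C ||| g.2) r (fun r' n => search T fuel (C ||| g.2) (cnt + 1) (g.1 :: inc) r' n)) &&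
            search T fuel C cnt inc r (len - 1)) true := rfl
      rw [e] at h
      have hb : Nat.ble 11 (Nat.add cnt len) = true := by
        apply Nat.ble_eq_true_of_le
        show 11 ≤ cnt + len
        omega
      rw [hb, cond_true, Bool.and_eq_true, filtK_eq] at h
      cases hs with
      | cons _ hs' =>
        exact ih C cnt inc r (len - 1) (by rw [hlen]; simp) h.2 s hs' hcard hpop
      | cons_cons _ hs' =>
        rename_i s'
        have hp' : pop ((C ||| g.2) ||| orAll s') ≤ 221 := by
          rw [orAll_cons, ← Nat.lor_assoc] at hpop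
          exact hpop
        have hsub : s'.Sublist (r.filter (keep (C ||| g.2))) := by
          have h1 : s'.filter (keep (C ||| g.2)) = s' := by
            rw [List.filter_eq_self]
            intro x hx
            unfold keep
            apply Nat.ble_eq_true_of_le
            refine le_trans (pc_le_pop _) (le_trans (pop_mono ?_) hp')
            intro b hb
            change ((C ||| g.2) ||| x.2).testBit b = true at hb
            rw [Nat.testBit_or, Bool.or_eq_true] at hb ⊢
            rcases hb with hb | hb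
            · exact Or.inl hb
            · right; rw [testBit_orAll]; exact ⟨x, hx, hb⟩
          rw [← h1]
          exact hs'.filter _
        have hc' : 11 ≤ (cnt + 1) + s'.length := by
          simp only [List.length_cons] at hcard; omega
        obtain ⟨t, ht, h2, h3⟩ := ih (C ||| g.2) (cnt + 1) (g.1 :: inc) _ _ rfl h.1 s' hsub hc' hp'
        refine ⟨t, ht, fun c hc => h2 c (List.mem_cons_of_mem _ hc), ?_⟩
        intro x hx
        rcases List.mem_cons.1 hx with hx | hx
        · rw [hx]; exact h2 _ List.mem_cons_self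
        · exact h3 x hx

end Pool.Agent.Helper677.Ham
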