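import Pool.Agent.Helper677.Ham.Grp
import Pool.Agent.Helper677.Ham.Sound

set_option autoImplicit false

namespace Pool.Agent.Helper677.Ham

open P

/-- columns `(x, y, l, h)` of the prism number 0 -/
def tab0 : List (ℤ × ℤ × ℤ × ℤ) := [(-3, 0, 1, 1), (-3, 1, 0, 0), (-2, -1, 1, 1), (-2, 0, 2, 2), (-2, 1, 1, 1), (-2, 2, 2, 2), (-1, -2, 1, 1), (-1, -1, 0, 0), (-1, 0, 1, 1), (-1, 1, 0, 0), (-1, 2, 1, 1), (-1, 3, 0, 0), (0, -3, 1, 1), (0, -2, 2, 2), (0, -1, 1, 1), (0, 0, 2, 2), (0, 1, 1, 1), (0, 2, 2, 2), (0, 3, 1, 1), (0, 4, 2, 2), (1, -4, 1, 1), (1, -3, 2, 0), (1, -2, 1, 1), (1, -1, 0, 0), (1, 0, 1, 1), (1, 1, 0, 0), (1, 2, 1, 1), (1, 3, 0, 0), (1, 4, 1, -1), (1, 5, 0, 0), (2, -3, 3, 1), (2, -2, 2, 2), (2, -1, 1, 1), (2, 0, 2, 2), (2, 1, 1, 1), (2, 2, 2, 2), (2, 3, 1, 1), (2, 4, 2, 0), (3, -2, 1, 1), (3, -1, 2, 0), (3, 0, 1, 1),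 (3, 1, 0, 0), (3, 2, 1, -1), (3, 3, 0, 0), (4, -1, 3, 1), (4, 0, 2, 2), (4, 1, 1, 1), (4, 2, 2, 0), (5, 0, 1, -1), (5, 1, 2, 0)]

/-- columns `(x, y, l, h)` of the prism number 1 -/
def tab1 : List (ℤ × ℤ × ℤ × ℤ) := [(-4, 1, 3, 1), (-3, 1, 0, 0), (-3, 2, 1, -1), (-3, 3, 0, 0), (-2, -1, 1, 1), (-2, 0, 2, 2), (-2, 1, 1, 1), (-2, 2, 2, 0), (-2, 3, 1, 1), (-1, -1, 0, 0), (-1, 0, 1, 1), (-1, 1, 0, 0), (-1, 2, 1, 1), (-1, 3, 0, 0), (-1, 4, 1, -1), (-1, 5, 0, 0), (0, -3, 1, 1), (0, -2, 2, 2), (0, -1, 1, 1), (0, 0, 2, 2), (0, 1, 1, 1), (0, 2, 2, 2), (0, 3, 1, 1), (0, 4, 2, 0), (0, 5, 1, 1), (1, -3, 0, 0), (1, -2, 1, 1), (1, -1, 0, 0), (1, 0, 1, 1), (1, 1, 0, 0), (1, 2, 1, 1), (1, 3, 0, 0), (1, 4, 1, 1), (2, -2, 2, 0), (2, -1, 1, 1), (2, 0, 2, 2), (2, 1, 1, 1), (2, 2, 2, 2), (2, 3, 1, 1), (2, 4, 2, 2), (3, -2, 1, -1), (3, -1, 0, 0), (3,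 0, 1, 1), (3, 1, 0, 0), (3, 2, 1, 1), (4, 0, 2, 0), (4, 1, 3, 1), (4, 2, 2, 2), (5, 0, 1, -1)]

/-- columns `(x, y, l, h)` of the prism number 2 -/
def tab2 : List (ℤ × ℤ × ℤ × ℤ) := [(-3, 1, 0, 0), (-2, -1, 1, 1), (-2, 0, 2, 2), (-2, 1, 1, 1), (-1, -1, 0, 0), (-1, 0, 1, 1), (-1, 1, 0, 0), (-1, 2, -1, 1), (-1, 3, 0, 0), (0, -2, 2, 0), (0, -1, 1, 1), (0, 0, 0, 2), (0, 1, 1, 1), (0, 2, 0, 2), (0, 3, 1, 1), (1, -2, 1, -1), (1, -1, 0, 0), (1, 0, -1, 1), (1, 1, 0, 0), (1, 2, -1, 1), (1, 3, 0, 0), (1, 4, 1, -1), (2, -2, 2, 0), (2, -1, 1, 1), (2, 0, 0, 2), (2, 1, 1, 1), (2, 2, 0, 2), (2, 3, 1, 1), (2, 4, 2, 0), (3, -2, 1, -1), (3, -1, 0, 0), (3, 0, -1, 1), (3, 1, 0, 0), (3, 2, -1, 1), (4, 0, 0, 0), (4, 1, 1, 1), (4, 2, 0, 2), (5, 0, -1, -1)]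

/-- the twelve element set -/
def Xs : List P := [P.mk (-2) 0 2 (by decide), P.mk (-1) 0 3 (by decide), P.mk (-1) 2 3 (by decide), P.mk (-1) 2 5 (by decide), P.mk 0 0 0 (by decide), P.mk 0 0 2 (by decide), P.mk 0 1 1 (by decide), P.mk 0 1 3 (by decide), P.mk 1 (-1) 4 (by decide), P.mk 1 1 2 (by decide), P.mk 1 1 4 (by decide), P.mk 2 1 1 (by decide)]

/-- planar image of the set in direction 0 -/
def img0 : List (ℤ × ℤ) := [(-5, 0), (-5, 1), (-4, -1), (-4, 0), (-4, 1), (-4, 2), (-3, -2), (-3, -1), (-3, 0), (-3, 1), (-3, 2), (-3, 3), (-2, -3), (-2, -2), (-2, -1), (-2, 0), (-2, 1), (-2, 2), (-2, 3), (-2, 4), (-1, -4), (-1, -3), (-1, -2), (-1, -1), (-1, 0), (-1, 1), (-1, 2), (-1, 3), (-1, 4), (-1, 5), (0, -5), (0, -4), (0, -3), (0, -2), (0, -1), (0, 0), (0, 1), (0, 2), (0, 3), (0, 4), (0, 5), (0, 6), (1, -4), (1, -3), (1, -2), (1,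 -1), (1, 0), (1, 1), (1, 2), (1, 3), (1, 4), (1, 5), (2, -3), (2, -2), (2, -1), (2, 0), (2, 1), (2, 2), (2, 3), (2, 4), (3, -2), (3, -1), (3, 0), (3, 1), (3, 2), (3, 3), (4, -1), (4, 0), (4, 1), (4, 2), (5, 0), (5, 1)]

/-- planar image of the set in direction 1 -/
def img1 : List (ℤ × ℤ) := [(-5, 3), (-4, 1), (-4, 2), (-4, 3), (-3, 1), (-3, 2), (-3, 3), (-3, 4), (-3, 5), (-2, -1), (-2, 0), (-2, 1), (-2, 2), (-2, 3), (-2, 4), (-2, 5), (-1, -1), (-1, 0), (-1, 1), (-1, 2), (-1, 3), (-1, 4), (-1, 5), (-1, 6), (-1, 7), (0, -3), (0, -2), (0, -1), (0, 0), (0, 1), (0, 2), (0, 3), (0, 4), (0, 5), (0, 6), (0, 7), (1, -3), (1, -2), (1, -1), (1, 0), (1, 1), (1, 2), (1, 3), (1, 4), (1, 5), (1, 6), (1, 7), (1, 8), (2, -2), (2, -1), (2, 0), (2, 1), (2, 2), (2, 3), (2, 4), (2, 5), (2, 6), (2, 7), (2, 8), (3, -2), (3, -1), (3, 0), (3, 1), (3,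 2), (3, 3), (3, 4), (3, 5), (3, 6), (4, 0), (4, 1), (4, 2), (4, 3), (4, 4), (4, 5), (4, 6), (5, 0), (5, 1), (5, 2), (5, 3), (5, 4), (6, 2), (6, 4)]

/-- planar image of the set in direction 2 -/
def img2 : List (ℤ × ℤ) := [(-3, 1), (-2, -1), (-2, 0), (-2, 1), (-1, -1), (-1, 0), (-1, 1), (-1, 2), (-1, 3), (0, -3), (0, -2), (0, -1), (0, 0), (0, 1), (0, 2), (0, 3), (1, -3), (1, -2), (1, -1), (1, 0), (1, 1), (1, 2), (1, 3), (1, 4), (2, -4), (2, -3), (2, -2), (2, -1), (2, 0), (2, 1), (2, 2), (2, 3), (2, 4), (3, -4), (3, -3), (3, -2), (3, -1), (3, 0), (3, 1), (3, 2), (3, 3), (3, 4), (4, -4), (4, -3), (4, -2), (4, -1), (4, 0), (4, 1), (4, 2), (4, 3), (4, 4), (5, -4), (5, -3), (5, -2), (5, -1), (5, 0), (5, 1), (5, 2), (6, -2), (6, -1), (6, 0), (6, 1), (6, 2), (7, -2), (7, -1), (7, 0), (8, 0)]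


def D0 : Finset (ℤ × ℤ) := (tab0.map (fun c => (c.1, c.2.1))).toFinset
def D1 : Finset (ℤ × ℤ) := (tab1.map (fun c => (c.1, c.2.1))).toFinset
def D2 : Finset (ℤ × ℤ) := (tab2.map (fun c => (c.1, c.2.1))).toFinset

theorem card_D0 : D0.card = 50 := by decide +kernel
theorem card_D1 : D1.card = 49 := by decide +kernel
theorem card_D2 : D2.card = 38 := by decide +kernel

def X : Finset P := Xs.toFinset
theorem card_X : X.card = 12 := by decide +kernel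

/-- the two rotated copies of the twelve element set -/
def Xs1 : List P := Xs.map tau
def Xs2 : List P := Xs1.map tau

/-- lower and upper offset of the image of a column -/
def loO (a : P) (c : ℤ × ℤ × ℤ × ℤ) : ℤ := if sg a.c1 = 1 then a.c3 + c.2.2.1 else a.c3 - c.2.2.2
def hiO (a : P) (c : ℤ × ℤ × ℤ × ℤ) : ℤ := if sg a.c1 = 1 then a.c3 + c.2.2.2 else a.c3 - c.2.2.1

/-- the combinatorial properties of a table of columns -/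
structure Good (Y : List P) (t : List (ℤ × ℤ × ℤ × ℤ)) : Prop where
  par : ∀ c ∈ t, (c.1 + c.2.1 + c.2.2.1) % 2 = 0 ∧ (c.1 + c.2.1 + c.2.2.2) % 2 = 0 ∧ -2 ≤ c.2.2.2 - c.2.2.1 ∧
    -5 ≤ c.2.2.1 ∧ c.2.2.2 ≤ 5
  rng : ∀ x ∈ Y, ∀ c ∈ t, -2 ≤ loO x c ∧ hiO x c ≤ 5
  lo : ∀ x ∈ Y, ∀ c ∈ t, ∃ x' ∈ Y, x' ≠ x ∧ ∃ c' ∈ t, pl x' (c'.1, c'.2.1) = pl x (c.1, c.2.1) ∧ loO x' c' ≤ loO x c
  hi : ∀ x ∈ Y, ∀ c ∈ t, ∃ x' ∈ Y, x' ≠ x ∧ ∃ c' ∈ t, pl x' (c'.1, c'.2.1) = pl x (c.1, c.2.1) ∧ hiO x c ≤ hiO x' c'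

theorem good0 : Good Xs tab0 where
  par := by decide +kernel
  rng := by decide +kernel
  lo := by decide +kernel
  hi := by decide +kernel

theorem good1 : Good Xs1 tab1 where
  par := by decide +kernel
  rng := by decide +kernel
  lo := by decide +kernel
  hi := by decide +kernel

theorem good2 : Good Xs2 tab2 where
  par := by decide +kernel
  rng := by decide +kernel
  lo := by decide +kernel
  hi := by decide +kernel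

theorem img0_spec : ∀ x ∈ Xs, ∀ c ∈ tab0, pl x (c.1, c.2.1) ∈ img0 := by decide +kernel
theorem img1_spec : ∀ x ∈ Xs1, ∀ c ∈ tab1, pl x (c.1, c.2.1) ∈ img1 := by decide +kernel
theorem img2_spec : ∀ x ∈ Xs2, ∀ c ∈ tab2, pl x (c.1, c.2.1) ∈ img2 := by decide +kernel
theorem img0_len : img0.length = 72 := by decide +kernel
theorem img1_len : img1.length = 82 := by decide +kernel
theorem img2_len : img2.length = 67 := by decide +kernel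

/-- list of bit positions -/
def maskL (l : List ℕ) : ℕ := l.foldr (fun b acc => 2 ^ b ||| acc) 0

def pos (s t : ℤ) (tab : List (ℤ × ℤ × ℤ × ℤ)) : List ℕ :=
  tab.map (fun c => (32 * (s * c.1) + t * c.2.1 + 176).toNat)

theorem B0pp_eq : B0pp = maskL (pos 1 1 tab0) := by decide +kernel
theorem B0pn_eq : B0pn = maskL (pos 1 (-1) tab0) := by decide +kernel
theorem B0np_eq : B0np = maskL (pos (-1) 1 tab0) := by decide +kernel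
theorem B0nn_eq : B0nn = maskL (pos (-1) (-1) tab0) := by decide +kernel
theorem B1pp_eq : B1pp = maskL (pos 1 1 tab1) := by decide +kernel
theorem B1pn_eq : B1pn = maskL (pos 1 (-1) tab1) := by decide +kernel
theorem B1np_eq : B1np = maskL (pos (-1) 1 tab1) := by decide +kernel
theorem B1nn_eq : B1nn = maskL (pos (-1) (-1) tab1) := by decide +kernel
theorem B2pp_eq : B2pp = maskL (pos 1 1 tab2) := by decide +kernel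
theorem B2pn_eq : B2pn = maskL (pos 1 (-1) tab2) := by decide +kernel
theorem B2np_eq : B2np = maskL (pos (-1) 1 tab2) := by decide +kernel
theorem B2nn_eq : B2nn = maskL (pos (-1) (-1) tab2) := by decide +kernel

theorem rng_tab0 : ∀ c ∈ tab0, -3 ≤ c.1 ∧ c.1 ≤ 5 ∧ -4 ≤ c.2.1 ∧ c.2.1 ≤ 5 := by decide +kernel
theorem rng_tab1 : ∀ c ∈ tab1, -4 ≤ c.1 ∧ c.1 ≤ 5 ∧ -3 ≤ c.2.1 ∧ c.2.1 ≤ 5 := by decide +kernel
theorem rng_tab2 : ∀ c ∈ tab2, -3 ≤ c.1 ∧ c.1 ≤ 5 ∧ -2 ≤ c.2.1 ∧ c.2.1 ≤ 4 := by decide +kernel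

/-- code of an element -/
def codeP (a : P) : ℕ := ((a.c1 + 10).toNat * 32 + (a.c2 + 10).toNat) * 32 + (a.c3 + 10).toNat

theorem trs_eq : trs = Xs.map (fun x => Xs.map (fun y => codeP (x⁻¹ * y))) := by decide +kernel

theorem trs_rng : ∀ x ∈ Xs, ∀ y ∈ Xs, (-10 ≤ (x⁻¹ * y).c1 ∧ (x⁻¹ * y).c1 ≤ 10) ∧
    (-10 ≤ (x⁻¹ * y).c2 ∧ (x⁻¹ * y).c2 ≤ 10) ∧ (-10 ≤ (x⁻¹ * y).c3 ∧ (x⁻¹ * y).c3 ≤ 10) := by decide +kernel

theorem order_rng : ∀ h ∈ order, (h.1 < 21 ∧ h.2.1 < 21 ∧ h.2.2.1 < 21) := by decide +kernel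

theorem one_mem_tab0 : ((0 : ℤ), (0 : ℤ), (2 : ℤ), (2 : ℤ)) ∈ tab0 := by decide +kernel

end Pool.Agent.Helper677.Ham
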